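import Pool.Agent.helper65.CPT.PW
import Pool.Agent.helper80.RN.Nonab
import Pool.Agent.helper69.RSV.A1

/-!
# Subdirectly irreducible groups with nonabelian monolith in compact groups

A subdirectly irreducible member, with nonabelian monolith, of a residually small variety is finite if it embeds in a
compact Hausdorff group.
-/

namespace Pool.Agent.helper65.CPT

open Function Pool.Agent.helper80.RSV Pool.Agent.helper80.RN
open scoped commutatorElement

/-- `z` or its inverse is conjugate to `c` or to `d` -/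
def FinCj {G : Type} [Group G] (c d z : G) : Prop :=
  ∃ g : G, z = g * c * g⁻¹ ∨ z = g * c⁻¹ * g⁻¹ ∨ z = g * d * g⁻¹ ∨ z = g * d⁻¹ * g⁻¹

theorem Fin_list {G : Type} [Group G] {c d z : G} (hz : z ∈ Subgroup.normalClosure ({c, d} : Set G)) :
    ∃ l : List G, (∀ y ∈ l, FinCj c d y) ∧ l.prod = z := by
  have hz' : z ∈ Submonoid.closure
      (Group.conjugatesOfSet ({c, d} : Set G) ∪ (Group.conjugatesOfSet ({c, d} : Set G))⁻¹) := by
    rw [← Subgroup.closure_toSubmonoid]; exact hz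
  obtain ⟨l, hl, hp⟩ := Submonoid.exists_list_of_mem_closure hz'
  refine ⟨l, fun y hy => ?_, hp⟩
  have hy' : y ∈ Group.conjugatesOfSet ({c, d} : Set G) ∨ y⁻¹ ∈ Group.conjugatesOfSet ({c, d} : Set G) := hl y hy
  rcases hy' with h | h
  · rw [Group.mem_conjugatesOfSet_iff] at h
    obtain ⟨s, hs, hc⟩ := h
    obtain ⟨g, hg⟩ := isConj_iff.mp hc
    rcases hs with rfl | hs
    · exact ⟨g, Or.inl hg.symm⟩
    · rw [Set.mem_singleton_iff] at hs
      subst hs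
      exact ⟨g, Or.inr (Or.inr (Or.inl hg.symm))⟩
  · rw [Group.mem_conjugatesOfSet_iff] at h
    obtain ⟨s, hs, hc⟩ := h
    obtain ⟨g, hg⟩ := isConj_iff.mp hc
    have h1 : y = g * s⁻¹ * g⁻¹ := by
      rw [← inv_inv y, ← hg]; group
    rcases hs with rfl | hs
    · exact ⟨g, Or.inr (Or.inl h1)⟩
    · rw [Set.mem_singleton_iff] at hs
      subst hs
      exact ⟨g, Or.inr (Or.inr (Or.inr h1))⟩

theorem Fin_comm {G : Type} [Group G] (hZ : ∀ N : Subgroup G, ∀ [N.Normal], ZP (G ⧸ N)) (x y : G) :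
    ⁅x, y⁆ ∈ Subgroup.normalClosure ({⁅⁅x, y⁆, x⁆, ⁅⁅x, y⁆, y⁆} : Set G) := by
  set M := Subgroup.normalClosure ({⁅⁅x, y⁆, x⁆, ⁅⁅x, y⁆, y⁆} : Set G) with hM
  let q : G →* G ⧸ M := QuotientGroup.mk' M
  have hq : ∀ z, q z = 1 ↔ z ∈ M := fun z => QuotientGroup.eq_one_iff z
  rw [← hq]
  have hx1 : ⁅⁅x, y⁆, x⁆ ∈ M := Subgroup.subset_normalClosure (Set.mem_insert _ _)
  have hy1 : ⁅⁅x, y⁆, y⁆ ∈ M :=
    Subgroup.subset_normalClosure (Set.mem_insert_of_mem _ (Set.mem_singleton _))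
  have hx2 : ⁅⁅q x, q y⁆, q x⁆ = 1 := by
    rw [← map_commutatorElement, ← map_commutatorElement]; exact (hq _).mpr hx1
  have hy2 : ⁅⁅q x, q y⁆, q y⁆ = 1 := by
    rw [← map_commutatorElement, ← map_commutatorElement]; exact (hq _).mpr hy1
  rw [map_commutatorElement]
  let K : Subgroup (G ⧸ M) := Subgroup.closure {q x, q y}
  have hxK : q x ∈ K := Subgroup.subset_closure (Set.mem_insert _ _)
  have hyK : q y ∈ K := Subgroup.subset_closure (Set.mem_insert_of_mem _ (Set.mem_singleton _))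
  refine hZ M K _ (Subgroup.commutator_mem_commutator hxK hyK) ?_
  have h1 : K ≤ Subgroup.centralizer {⁅q x, q y⁆} := by
    rw [Subgroup.closure_le]
    intro z hz
    rw [SetLike.mem_coe, Subgroup.mem_centralizer_singleton_iff]
    rcases hz with rfl | hz
    · exact (commutatorElement_eq_one_iff_mul_comm.mp hx2).symm
    · rw [Set.mem_singleton_iff] at hz
      subst hz
      exact (commutatorElement_eq_one_iff_mul_comm.mp hy2).symm
  intro k hk
  exact Subgroup.mem_centralizer_singleton_iff.mp (h1 hk)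

/-- the identity `γ₂ = γ₃` with a uniform bound -/
theorem Fin_ident {G : Type} [Group G] (hZ : ∀ N : Subgroup (ℕ → G), ∀ [N.Normal], ZP ((ℕ → G) ⧸ N)) :
    ∃ N : ℕ, ∀ x y : G, ∃ l : List G, l.length ≤ N ∧
      (∀ z ∈ l, FinCj ⁅⁅x, y⁆, x⁆ ⁅⁅x, y⁆, y⁆ z) ∧ l.prod = ⁅x, y⁆ := by
  by_contra hcon
  push Not at hcon
  choose x y hxy using hcon
  obtain ⟨l, hl, hp⟩ := Fin_list (Fin_comm hZ x y)
  refine hxy l.length (l.map (Pi.evalMonoidHom (fun _ => G) l.length)) (by rw [List.length_map]) ?_ ?_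
  · intro z hz
    rw [List.mem_map] at hz
    obtain ⟨w, hw, rfl⟩ := hz
    obtain ⟨g, hg⟩ := hl w hw
    refine ⟨g l.length, ?_⟩
    rcases hg with h | h | h | h
    · left; rw [h]; rfl
    · right; left; rw [h]; rfl
    · right; right; left; rw [h]; rfl
    · right; right; right; rw [h]; rfl
  · rw [← map_list_prod, hp]; rfl

section Norm

variable {G : Type} [Group G] {A : Type} [NormedRing A] {ψ : G →* A} (hψ : ∀ g, ‖ψ g‖ ≤ 1)

include hψ

theorem Fin_mul_le (g : G) (b : A) : ‖ψ g * b‖ ≤ ‖b‖ := by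
  calc ‖ψ g * b‖ ≤ ‖ψ g‖ * ‖b‖ := norm_mul_le _ _
    _ ≤ 1 * ‖b‖ := by gcongr; exact hψ g
    _ = ‖b‖ := one_mul _

theorem Fin_mul_le' (g : G) (b : A) : ‖b * ψ g‖ ≤ ‖b‖ := by
  calc ‖b * ψ g‖ ≤ ‖b‖ * ‖ψ g‖ := norm_mul_le _ _
    _ ≤ ‖b‖ * 1 := by gcongr; exact hψ g
    _ = ‖b‖ := mul_one _

theorem Fin_inv (g : G) : ‖ψ g⁻¹ - 1‖ ≤ ‖ψ g - 1‖ := by
  have h : ψ g⁻¹ - 1 = ψ g⁻¹ * (1 - ψ g) := by
    rw [mul_sub, mul_one, ← map_mul, inv_mul_cancel, map_one]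
  rw [h]
  refine (Fin_mul_le hψ _ _).trans (le_of_eq ?_)
  rw [norm_sub_rev]

theorem Fin_conj (k g : G) : ‖ψ (k * g * k⁻¹) - 1‖ ≤ ‖ψ g - 1‖ := by
  have h : ψ (k * g * k⁻¹) - 1 = ψ k * (ψ g - 1) * ψ k⁻¹ := by
    rw [mul_sub, sub_mul, mul_one, ← map_mul, ← map_mul, ← map_mul, mul_inv_cancel, map_one]
  rw [h]
  exact (Fin_mul_le' hψ _ _).trans (Fin_mul_le hψ _ _)

theorem Fin_prod (g h : G) : ‖ψ (g * h) - 1‖ ≤ ‖ψ g - 1‖ + ‖ψ h - 1‖ := by
  have h1 : ψ (g * h) - 1 = (ψ g - 1) + ψ g * (ψ h - 1) := by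
    rw [map_mul, mul_sub, mul_one]; abel
  rw [h1]
  refine (norm_add_le _ _).trans ?_
  gcongr
  exact Fin_mul_le hψ _ _

theorem Fin_commutator (g h : G) : ‖ψ ⁅g, h⁆ - 1‖ ≤ 2 * ‖ψ g - 1‖ * ‖ψ h - 1‖ := by
  have h1 : ψ ⁅g, h⁆ - 1 = ((ψ g - 1) * (ψ h - 1) - (ψ h - 1) * (ψ g - 1)) * ψ (g⁻¹ * h⁻¹) := by
    have h2 : (ψ g - 1) * (ψ h - 1) - (ψ h - 1) * (ψ g - 1) = ψ (g * h) - ψ (h * g) := by
      rw [map_mul, map_mul]; noncomm_ring
    rw [h2, sub_mul, ← map_mul, ← map_mul, commutatorElement_def]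
    congr 1
    · congr 1; group
    · have h3 : h * g * (g⁻¹ * h⁻¹) = 1 := by group
      rw [h3, map_one]
  rw [h1]
  refine (Fin_mul_le' hψ _ _).trans ((norm_sub_le _ _).trans ?_)
  calc ‖(ψ g - 1) * (ψ h - 1)‖ + ‖(ψ h - 1) * (ψ g - 1)‖
      ≤ ‖ψ g - 1‖ * ‖ψ h - 1‖ + ‖ψ h - 1‖ * ‖ψ g - 1‖ := add_le_add (norm_mul_le _ _) (norm_mul_le _ _)
    _ = 2 * ‖ψ g - 1‖ * ‖ψ h - 1‖ := by ring

theorem Fin_listle {δ : ℝ} (l : List G) (hl : ∀ z ∈ l, ‖ψ z - 1‖ ≤ δ) :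
    ‖ψ l.prod - 1‖ ≤ l.length * δ := by
  induction l with
  | nil => simp
  | cons a l ih =>
    rw [List.prod_cons, List.length_cons]
    refine (Fin_prod hψ _ _).trans ?_
    have h1 := hl a (List.mem_cons_self ..)
    have h2 := ih fun z hz => hl z (List.mem_cons_of_mem _ hz)
    push_cast
    linarith

theorem Fin_near {N : ℕ} (hN : ∀ x y : G, ∃ l : List G, l.length ≤ N ∧
      (∀ z ∈ l, FinCj ⁅⁅x, y⁆, x⁆ ⁅⁅x, y⁆, y⁆ z) ∧ l.prod = ⁅x, y⁆) {ε : ℝ} (hε : 2 * N * ε < 1)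
    {x y : G} (hx : ‖ψ x - 1‖ ≤ ε) (hy : ‖ψ y - 1‖ ≤ ε) : ψ ⁅x, y⁆ = 1 := by
  obtain ⟨l, hlN, hl, hp⟩ := hN x y
  set D := ‖ψ ⁅x, y⁆ - 1‖ with hD
  have hD0 : 0 ≤ D := norm_nonneg _
  have hε0 : 0 ≤ ε := (norm_nonneg _).trans hx
  have hc : ‖ψ ⁅⁅x, y⁆, x⁆ - 1‖ ≤ 2 * D * ε :=
    (Fin_commutator hψ _ _).trans (mul_le_mul_of_nonneg_left hx (by positivity))
  have hd : ‖ψ ⁅⁅x, y⁆, y⁆ - 1‖ ≤ 2 * D * ε :=
    (Fin_commutator hψ _ _).trans (mul_le_mul_of_nonneg_left hy (by positivity))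
  have h1 : ∀ z ∈ l, ‖ψ z - 1‖ ≤ 2 * D * ε := by
    intro z hz
    obtain ⟨g, h | h | h | h⟩ := hl z hz
    · rw [h]; exact (Fin_conj hψ _ _).trans hc
    · rw [h]; exact (Fin_conj hψ _ _).trans ((Fin_inv hψ _).trans hc)
    · rw [h]; exact (Fin_conj hψ _ _).trans hd
    · rw [h]; exact (Fin_conj hψ _ _).trans ((Fin_inv hψ _).trans hd)
  have h2 := Fin_listle hψ l h1
  rw [hp, ← hD] at h2
  have h3 : D ≤ N * (2 * D * ε) := by
    refine h2.trans (mul_le_mul_of_nonneg_right ?_ (by positivity))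
    exact_mod_cast hlN
  have h4 : D = 0 := by
    by_contra hne
    have h5 : 0 < D := lt_of_le_of_ne hD0 (Ne.symm hne)
    have h6 : D * (2 * N * ε) < D * 1 := mul_lt_mul_of_pos_left hε h5
    nlinarith
  exact sub_eq_zero.mp (norm_eq_zero.mp (hD ▸ h4))

end Norm

/-- a subdirectly irreducible member with nonabelian monolith, embedded in a compact group, is finite -/
theorem fin_of_compact {W : Set (FreeGroup ℕ)} (hR : ResSmall W) {G : Type} [Group G] (hG : Sat W G)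
    (hn : NonabSI G) {H : Type} [Group H] [TopologicalSpace H] [IsTopologicalGroup H] [CompactSpace H] [T2Space H]
    (ι : G →* H) (hι : Injective ι) : Finite G := by
  obtain ⟨A, hA, hAna⟩ := hn
  obtain ⟨⟨a, haA⟩, ha1⟩ := Subgroup.ne_bot_iff_exists_ne_one.mp hA.2.1
  have ha : a ≠ 1 := fun h => ha1 (Subtype.ext h)
  have hιa : ι a ≠ 1 := fun h => ha (hι (h.trans (map_one ι).symm))
  obtain ⟨V, _, _, _, ρ, hρc, hρ, hρa⟩ := PW_sep hιa
  let ψ : G →* (V →L[ℝ] V) := ρ.comp ι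
  have hψapp : ∀ g, ψ g = ρ (ι g) := fun _ => rfl
  have hψ : ∀ g, ‖ψ g‖ ≤ 1 := fun g =>
    ContinuousLinearMap.opNorm_le_bound _ zero_le_one fun v => by
      rw [one_mul, hψapp, hρ]
  have hker : ∀ g, ψ g = 1 → g = 1 := by
    intro g hg
    by_contra hne
    have h1 : ψ.ker ≠ ⊥ := by
      intro hb
      have h2 : g ∈ ψ.ker := hg
      rw [hb, Subgroup.mem_bot] at h2
      exact hne h2
    have h2 : a ∈ ψ.ker := hA.2.2 _ inferInstance h1 haA
    exact hρa h2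
  obtain ⟨N, hN⟩ := Fin_ident (G := G) fun M _ => zp_of_rs hR ((Sat.pi fun _ => hG).quotient M)
  obtain ⟨ε, hε0, hε⟩ : ∃ ε : ℝ, 0 < ε ∧ 2 * N * ε < 1 := by
    refine ⟨1 / (2 * N + 1), by positivity, ?_⟩
    rw [mul_one_div, div_lt_one (by positivity)]
    linarith
  -- the elements near `1` commute
  have hcom : ∀ x y : G, ‖ψ x - 1‖ < ε → ‖ψ y - 1‖ < ε → x * y = y * x := by
    intro x y hx hy
    exact commutatorElement_eq_one_iff_mul_comm.mp (hker _ (Fin_near hψ hN hε hx.le hy.le))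
  -- so they are trivial
  have htriv : ∀ x : G, ‖ψ x - 1‖ < ε → x = 1 := by
    intro x hx
    by_contra hx1
    apply hAna
    have h1 : Subgroup.normalClosure ({x} : Set G) ≠ ⊥ := by
      intro hb
      have h2 : x ∈ Subgroup.normalClosure ({x} : Set G) := Subgroup.subset_normalClosure rfl
      rw [hb, Subgroup.mem_bot] at h2
      exact hx1 h2
    have h2 : A ≤ Subgroup.normalClosure ({x} : Set G) := hA.2.2 _ inferInstance h1
    have h3 : ∀ s ∈ Group.conjugatesOfSet ({x} : Set G), ‖ψ s - 1‖ < ε := by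
      intro s hs
      rw [Group.mem_conjugatesOfSet_iff] at hs
      obtain ⟨t, ht, hc⟩ := hs
      rw [Set.mem_singleton_iff] at ht
      subst ht
      obtain ⟨g, hg⟩ := isConj_iff.mp hc
      rw [← hg]
      exact lt_of_le_of_lt (Fin_conj hψ _ _) hx
    have h4 : Subgroup.normalClosure ({x} : Set G) ≤
        Subgroup.centralizer (Group.conjugatesOfSet ({x} : Set G)) := by
      rw [Subgroup.normalClosure, Subgroup.closure_le]
      intro s hs
      rw [SetLike.mem_coe, Subgroup.mem_centralizer_iff]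
      intro t ht
      exact hcom t s (h3 t ht) (h3 s hs)
    have h5 : Subgroup.normalClosure ({x} : Set G) ≤
        Subgroup.centralizer (Subgroup.normalClosure ({x} : Set G) : Set G) := by
      rw [← Subgroup.le_centralizer_iff]
      conv_lhs => rw [Subgroup.normalClosure]
      rw [Subgroup.closure_le]
      intro s hs
      rw [SetLike.mem_coe, Subgroup.mem_centralizer_iff]
      intro t ht
      exact ((Subgroup.mem_centralizer_iff.mp (h4 ht)) s hs).symm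
    intro u hu v hv
    exact Subgroup.mem_centralizer_iff.mp (h5 (h2 hv)) u (h2 hu)
  -- compactness
  by_contra hinf
  rw [not_finite_iff_infinite] at hinf
  have hcpt : IsCompact (Set.range ρ) := isCompact_range hρc
  obtain ⟨t, htf, ht⟩ := Metric.totallyBounded_iff.mp hcpt.totallyBounded (ε / 2) (by positivity)
  have h1 : ∀ g : G, ∃ y : t, ψ g ∈ Metric.ball (y : V →L[ℝ] V) (ε / 2) := by
    intro g
    have h2 := ht (Set.mem_range_self (ι g))
    rw [Set.mem_iUnion₂] at h2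
    obtain ⟨y, hy, hyy⟩ := h2
    exact ⟨⟨y, hy⟩, hyy⟩
  choose y hy using h1
  have := htf.to_subtype
  obtain ⟨g, h, hgh, he⟩ := Finite.exists_ne_map_eq_of_infinite y
  apply hgh
  have h2 : ‖ψ g - ψ h‖ < ε := by
    have h3 := hy g
    have h4 := hy h
    rw [Metric.mem_ball] at h3 h4
    rw [he] at h3
    rw [← dist_eq_norm]
    have h5 := dist_triangle_right (ψ g) (ψ h) ((y h : t) : V →L[ℝ] V)
    linarith
  have h3 : ‖ψ (h⁻¹ * g) - 1‖ < ε := by
    have h4 : ψ (h⁻¹ * g) - 1 = ψ h⁻¹ * (ψ g - ψ h) := by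
      rw [mul_sub, ← map_mul, ← map_mul, inv_mul_cancel, map_one]
    rw [h4]
    exact lt_of_le_of_lt (Fin_mul_le hψ _ _) h2
  have h4 := htriv _ h3
  rw [inv_mul_eq_one] at h4
  exact h4.symm

end Pool.Agent.helper65.CPT
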