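import Mathlib

/-!
# A compact group has enough finite dimensional orthogonal representations

The operator `T = ∫ ⟪Φ x, ·⟫ Φ x` over the compact group `H`, `Φ x` the translate of a vector `φ` by `x`, is compact,
symmetric and commutes with the translations; so its eigenspaces with nonzero eigenvalue are finite dimensional
representations, and if `a` acts trivially on all of them, then it fixes `φ`.
-/

namespace Pool.Agent.helper65.CPT

open MeasureTheory Topology InnerProductSpace Module
open scoped ENNReal RealInnerProductSpace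

section Abs

theorem PW_inner {H : Type} [Group H] {E : Type} [NormedAddCommGroup E] [InnerProductSpace ℝ E]
    {U : H →* (E →L[ℝ] E)} (hU : ∀ g v, ‖U g v‖ = ‖v‖) (g : H) (v w : E) :
    ⟪U g v, U g w⟫ = ⟪v, w⟫ := by
  have h1 := norm_add_sq_real (U g v) (U g w)
  have h2 := norm_add_sq_real v w
  rw [← map_add, hU, hU, hU] at h1
  linarith

variable {H : Type} [Group H] [TopologicalSpace H] [IsTopologicalGroup H] [CompactSpace H]
  [MeasurableSpace H] [BorelSpace H]
variable {E : Type} [NormedAddCommGroup E] [InnerProductSpace ℝ E] [CompleteSpace E]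

theorem PW_abs (U : H →* (E →L[ℝ] E)) (hU : ∀ g v, ‖U g v‖ = ‖v‖) (hc : ∀ v, Continuous fun g => U g v)
    (μ : Measure H) [μ.IsHaarMeasure] [IsProbabilityMeasure μ] {a : H} {φ : E} (hφ : U a φ ≠ φ) :
    ∃ V : Submodule ℝ E, FiniteDimensional ℝ V ∧ (∀ g, ∀ v ∈ V, U g v ∈ V) ∧ ∃ v ∈ V, U a v ≠ v := by
  have hin := fun g v w => PW_inner hU g v w
  let Φ : H → E := fun x => U x φ
  have hΦ : Continuous Φ := hc φ
  let R : H → (E →L[ℝ] E) := fun x => rankOne ℝ (Φ x) (Φ x)
  have hRapp : ∀ x v, R x v = ⟪Φ x, v⟫ • Φ x := fun x v => rfl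
  have hR : Continuous R := by
    have h1 : Continuous fun x => rankOne ℝ (Φ x) := (rankOne ℝ (E := E) (F := E)).continuous.comp hΦ
    exact h1.clm_apply hΦ
  have hint : Integrable R μ := hR.integrable_of_hasCompactSupport (HasCompactSupport.of_compactSpace R)
  let T : E →L[ℝ] E := ∫ x, R x ∂μ
  have hTapp : ∀ v, T v = ∫ x, ⟪Φ x, v⟫ • Φ x ∂μ := by
    intro v
    exact ContinuousLinearMap.integral_apply hint v
  have hvint : ∀ v, Integrable (fun x => ⟪Φ x, v⟫ • Φ x) μ := by
    intro v
    have h1 : Continuous fun x => ⟪Φ x, v⟫ • Φ x := (hΦ.inner continuous_const).smul hΦ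
    exact h1.integrable_of_hasCompactSupport (HasCompactSupport.of_compactSpace _)
  have hTin : ∀ v w, ⟪w, T v⟫ = ∫ x, ⟪Φ x, v⟫ * ⟪Φ x, w⟫ ∂μ := by
    intro v w
    rw [hTapp, ← integral_inner (hvint v)]
    refine integral_congr_ae (Filter.Eventually.of_forall fun x => ?_)
    show ⟪w, ⟪Φ x, v⟫ • Φ x⟫ = ⟪Φ x, v⟫ * ⟪Φ x, w⟫
    rw [real_inner_smul_right, real_inner_comm w]
  have hsym : T.IsSymmetric := by
    intro v w
    show ⟪T v, w⟫ = ⟪v, T w⟫
    rw [real_inner_comm, hTin, hTin]
    refine integral_congr_ae (Filter.Eventually.of_forall fun x => ?_)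
    exact mul_comm _ _
  have hcomm : ∀ g v, U g (T v) = T (U g v) := by
    intro g v
    rw [hTapp, hTapp, ← ContinuousLinearMap.integral_comp_comm (U g) (hvint v)]
    rw [← integral_mul_left_eq_self (fun x => ⟪Φ x, U g v⟫ • Φ x) g]
    refine integral_congr_ae (Filter.Eventually.of_forall fun x => ?_)
    show U g (⟪Φ x, v⟫ • Φ x) = ⟪Φ (g * x), U g v⟫ • Φ (g * x)
    have h1 : Φ (g * x) = U g (Φ x) := by
      show U (g * x) φ = U g (U x φ)
      rw [map_mul]; rfl
    rw [h1, hin, map_smul]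
  have hcpt : IsCompactOperator T := by
    have h1 : Convex ℝ ((compactOperator (RingHom.id ℝ) E E : Submodule ℝ (E →L[ℝ] E)) : Set (E →L[ℝ] E)) :=
      Submodule.convex _
    have h2 : IsClosed ((compactOperator (RingHom.id ℝ) E E : Submodule ℝ (E →L[ℝ] E)) : Set (E →L[ℝ] E)) :=
      isClosed_setOfPred_isCompactOperator
    have h3 : ∀ x, R x ∈ ((compactOperator (RingHom.id ℝ) E E : Submodule ℝ (E →L[ℝ] E)) : Set (E →L[ℝ] E)) := by
      intro x
      have h4 : IsCompactOperator (innerSL ℝ (Φ x)) :=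
        isCompactOperator_of_locallyCompactSpace_dom _
      exact h4.clm_comp (ContinuousLinearMap.toSpanSingleton ℝ (Φ x))
    exact h1.integral_mem h2 (Filter.Eventually.of_forall h3) hint
  by_contra hcon
  push Not at hcon
  have hfix : ∀ c : ℝ, c ≠ 0 → ∀ v ∈ End.eigenspace (T : Module.End ℝ E) c, U a v = v := by
    intro c hc0 v hv
    have hfd := ContinuousLinearMap.finite_dimensional_eigenspace hcpt c hc0
    refine hcon _ hfd (fun g w hw => ?_) v hv
    rw [End.mem_eigenspace_iff] at hw ⊢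
    show T (U g w) = c • U g w
    rw [← hcomm, ← map_smul]
    congr 1
  let S : E →L[ℝ] E := (U a).comp T - T
  have hS : ∀ v, S v = U a (T v) - T v := fun v => rfl
  have hS0 : ∀ v, S v = 0 := by
    have h1 : (⨆ c, End.eigenspace (T : Module.End ℝ E) c) ≤ LinearMap.ker (S : E →ₗ[ℝ] E) := by
      refine iSup_le fun c v hv => ?_
      rw [LinearMap.mem_ker]
      show S v = 0
      rw [hS]
      have h2 : T v = c • v := End.mem_eigenspace_iff.mp hv
      by_cases hc0 : c = 0
      · rw [h2, hc0, zero_smul, map_zero, sub_zero]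
      · rw [h2, map_smul, hfix c hc0 v hv, sub_self]
    have h2 := ContinuousLinearMap.orthogonalComplement_iSup_eigenspaces_eq_bot hcpt hsym
    have h3 : (⨆ c, End.eigenspace (T : Module.End ℝ E) c).topologicalClosure = ⊤ := by
      rwa [Submodule.topologicalClosure_eq_top_iff]
    have h4 : (⊤ : Submodule ℝ E) ≤ LinearMap.ker (S : E →ₗ[ℝ] E) := by
      rw [← h3]
      exact Submodule.topologicalClosure_minimal _ h1 S.isClosed_ker
    intro v
    exact LinearMap.mem_ker.mp (h4 (Submodule.mem_top : v ∈ ⊤))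
  set w : E := U a φ - φ with hw
  have hTw : T w = 0 := by
    rw [hw, map_sub, ← hcomm, ← hS]
    exact hS0 φ
  have h0 : ∫ x, ⟪Φ x, w⟫ * ⟪Φ x, w⟫ ∂μ = 0 := by
    rw [← hTin, hTw, inner_zero_right]
  have hcont : Continuous fun x => ⟪Φ x, w⟫ * ⟪Φ x, w⟫ :=
    (hΦ.inner continuous_const).mul (hΦ.inner continuous_const)
  have hae : (fun x => ⟪Φ x, w⟫ * ⟪Φ x, w⟫) =ᵐ[μ] 0 :=
    (integral_eq_zero_iff_of_nonneg (fun x => mul_self_nonneg _)
      (hcont.integrable_of_hasCompactSupport (HasCompactSupport.of_compactSpace _))).mp h0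
  have hall : (fun x => ⟪Φ x, w⟫ * ⟪Φ x, w⟫) = 0 :=
    Continuous.ae_eq_iff_eq μ hcont continuous_zero |>.mp hae
  have h1 : ⟪φ, w⟫ = 0 := by
    have h2 := congrFun hall 1
    have h3 : Φ 1 = φ := by
      show U 1 φ = φ
      rw [map_one]; rfl
    simp only [h3, Pi.zero_apply] at h2
    exact mul_self_eq_zero.mp h2
  apply hφ
  rw [← sub_eq_zero, ← norm_eq_zero, ← sq_eq_zero_iff (a := ‖U a φ - φ‖)]
  have h5 := norm_sub_sq_real (U a φ) φ
  rw [hU] at h5
  rw [hw, inner_sub_right, real_inner_self_eq_norm_sq, real_inner_comm] at h1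
  rw [h5]
  linarith

end Abs

section Reg

variable {H : Type} [Group H] [TopologicalSpace H] [IsTopologicalGroup H] [CompactSpace H] [T2Space H]

/-- **Peter-Weyl**: finite dimensional orthogonal representations separate the points of a compact group. -/
theorem PW_sep {a : H} (ha : a ≠ 1) :
    ∃ (V : Type) (_ : NormedAddCommGroup V) (_ : InnerProductSpace ℝ V) (_ : FiniteDimensional ℝ V)
      (ρ : H →* (V →L[ℝ] V)), Continuous ρ ∧ (∀ g v, ‖ρ g v‖ = ‖v‖) ∧ ρ a ≠ 1 := by
  classical
  borelize H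
  let μ : Measure H := Measure.haarMeasure ⊤
  have hμ1 : IsProbabilityMeasure μ := ⟨by
    have h := Measure.haarMeasure_self (G := H) (K₀ := ⊤)
    simpa using h⟩
  have : Fact ((1 : ℝ≥0∞) ≤ 2) := ⟨by norm_num⟩
  have : Fact ((2 : ℝ≥0∞) ≠ ∞) := ⟨by norm_num⟩
  let U : H →* (Lp ℝ 2 μ →L[ℝ] Lp ℝ 2 μ) :=
    { toFun := fun g =>
        { toFun := fun f => DomMulAct.mk g⁻¹ • f
          map_add' := fun f f' => smul_add _ _ _
          map_smul' := fun c f => smul_comm _ _ _
          cont := continuous_const_smul _ }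
      map_one' := by
        ext1 f
        show DomMulAct.mk (1 : H)⁻¹ • f = f
        rw [inv_one, DomMulAct.mk_one, one_smul]
      map_mul' := fun g h => by
        ext1 f
        show DomMulAct.mk (g * h)⁻¹ • f = DomMulAct.mk g⁻¹ • DomMulAct.mk h⁻¹ • f
        rw [mul_inv_rev, DomMulAct.mk_mul, mul_smul] }
  have hUapp : ∀ g f, U g f = DomMulAct.mk g⁻¹ • f := fun _ _ => rfl
  have hU : ∀ g f, ‖U g f‖ = ‖f‖ := fun g f => by
    rw [hUapp]; exact DomMulAct.norm_smul_Lp _ _
  have hc : ∀ f, Continuous fun g => U g f := by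
    intro f
    have h1 : Continuous fun g : H => DomMulAct.mk g⁻¹ := DomMulAct.continuous_mk.comp continuous_inv
    exact h1.smul continuous_const
  obtain ⟨f, hf⟩ : ∃ f : C(H, ℝ), f a⁻¹ ≠ f 1 := by
    obtain ⟨f, h0, h1, -⟩ := exists_continuous_zero_one_of_isClosed (isClosed_singleton (x := a⁻¹))
      (isClosed_singleton (x := (1 : H))) (by
        rw [Set.disjoint_singleton]
        intro h
        exact ha (inv_eq_one.mp h))
    refine ⟨f, ?_⟩
    rw [h0 rfl, h1 rfl]
    norm_num
  have hmem : MemLp f 2 μ := f.continuous.memLp_of_hasCompactSupport (HasCompactSupport.of_compactSpace _)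
  have hφ : U a (hmem.toLp f) ≠ hmem.toLp f := by
    intro h
    rw [hUapp, DomMulAct.mk_smul_toLp, MemLp.toLp_eq_toLp_iff] at h
    have h1 : (fun x => f (a⁻¹ • x)) = f :=
      Continuous.ae_eq_iff_eq μ (f.continuous.comp (continuous_const_smul _)) f.continuous |>.mp h
    have h2 := congrFun h1 1
    apply hf
    simpa using h2
  obtain ⟨V, hV, hinv, v, hv, hav⟩ := PW_abs U hU hc μ hφ
  let ρ : H →* (V →L[ℝ] V) :=
    { toFun := fun g => ((U g).comp V.subtypeL).codRestrict V fun v => hinv g v v.2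
      map_one' := by
        ext1 v
        apply Subtype.ext
        show U 1 v = v
        rw [map_one]; rfl
      map_mul' := fun g h => by
        ext1 v
        apply Subtype.ext
        show U (g * h) v = U g (U h v)
        rw [map_mul]; rfl }
  refine ⟨V, inferInstance, inferInstance, hV, ρ, ?_, ?_, ?_⟩
  · rw [continuous_clm_apply]
    intro v
    exact (hc v).subtype_mk _
  · intro g v
    exact hU g v
  · intro h
    apply hav
    have h1 : ρ a ⟨v, hv⟩ = ⟨v, hv⟩ := by rw [h]; rfl
    exact congrArg Subtype.val h1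

end Reg

end Pool.Agent.helper65.CPT
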